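import Pool.Agent.Y813.LE.Main

set_option autoImplicit false

open Pool.Agent.Y813.Refl (form quadric discKernel)
open Pool.Agent.Y813.Lee

namespace Pool.Agent.Results.MP_ccc26a_nt.CompleteTwoDivisor

/-- **Question Q1 of MP_ccc26a_nt, answered in the affirmative.** Let `L` be an even positive
definite lattice of arbitrary rank `r` (with Gram matrix `G`) without vectors of norm 2, and let
`M = 2U + L(-1)`. Suppose that there is a modular form, of some weight `k` and with some character
`χ`, for the discriminant kernel of `M` (with respect to an arbitrary component of the domain) with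
complete 2-divisor. Then `L` is isometric to a primitive sublattice of the Leech lattice, and `L`
satisfies the condition `Norm_2`. -/
theorem result (r : ℕ) (G : Matrix (Fin r) (Fin r) ℤ) (hsymm : G.IsSymm)
    (heven : ∀ i, Even (G i i))
    (hpos : ∀ x : Fin r → ℝ, x ≠ 0 → 0 < form G x x)
    (hroot : ∀ v : Fin r → ℤ, form G v v ≠ 2)
    (Z₀ : Fin 4 ⊕ Fin r → ℂ) (hZ₀ : Z₀ ∈ quadric (gramM G)) (k : ℤ)
    (χ : discKernel (gramM G) (connectedComponentIn (quadric (gramM G)) Z₀) →* ℂˣ)
    (F : (Fin 4 ⊕ Fin r → ℂ) → ℂ)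
    (hF : IsModularForm (gramM G) (connectedComponentIn (quadric (gramM G)) Z₀) k χ F)
    (hdiv : HasCompleteTwoDivisor (gramM G) (connectedComponentIn (quadric (gramM G)) Z₀) F) :
    (∃ N : Matrix (Fin 24) (Fin 24) ℤ, IsLeechLattice N ∧ IsPrimitiveSublattice G N) ∧
      SatisfiesNorm2 G :=
  Pool.Agent.Y813.LE.main ⟨⟨hsymm, hpos⟩, heven, hroot⟩ hZ₀ hF hdiv

end Pool.Agent.Results.MP_ccc26a_nt.CompleteTwoDivisor
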